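import Pool.Agent.Helper13.LG.G10
import Pool.Agent.Helper10.RR.CurveW
import Pool.Agent.Helper10.RR.TrW

/-!
# Project TWH, block D: the base field over a field of constants
-/

universe u v

namespace Pool.Agent.TWH

open Pool.Agent.LT

/-- **The base field**, over a field of constants. -/
theorem exists_base_fieldF {F k : Type u} [Field F] [Field k] [Algebra F k] [CharZero F]
    (hF : ∃ S : Finset F, Subfield.closure (S : Set F) = ⊤)
    (hk : ∃ S : Finset k, Subfield.closure (S : Set k) = ⊤) {t u : k}
    (htu : AlgebraicIndependent F ![t, u]) :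
    ∃ F₁ : IntermediateField F k, (∃ S : Finset F₁, Subfield.closure (S : Set F₁) = ⊤) ∧
      (∀ z : k, IsAlgebraic F₁ z → z ∈ F₁) ∧ AlgebraicIndependent F₁ ![t, u] ∧
      FiniteDimensional (IntermediateField.adjoin F₁ {t, u}) k := by
  have hchk : CharZero k := charZero_of_injective_algebraMap (algebraMap F k).injective
  have hrange : Set.range ![t, u] = {t, u} := by
    simp only [Matrix.range_cons, Matrix.range_empty, Set.union_empty, Set.singleton_union]
  -- `k` is essentially of finite type over `F`
  have hess : Algebra.EssFiniteType F k := by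
    obtain ⟨S, hS⟩ := hk
    rw [← IntermediateField.fg_top_iff]
    refine ⟨S, ?_⟩
    rw [eq_top_iff]
    intro z _
    have hz : z ∈ Subfield.closure (S : Set k) := by rw [hS]; trivial
    exact (Subfield.closure_le (t := (IntermediateField.adjoin F (S : Set k)).toSubfield)).2
      (IntermediateField.subset_adjoin F (S : Set k)) hz
  set L := IntermediateField.adjoin F ({t, u} : Set k) with hL
  have hessL : Algebra.EssFiniteType L k := Algebra.EssFiniteType.of_comp F L k
  obtain ⟨s, hs⟩ := exists_finset_isTranscendenceBasis L k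
  set E₀ := IntermediateField.adjoin F (s : Set k) with hE₀
  have hind : AlgebraicIndependent E₀ ![t, u] := by
    have h1 : AlgebraicIndependent (Algebra.adjoin F (Set.range ![t, u])) ((↑) : s → k) := by
      rw [hrange]
      exact IntermediateField.algebraicIndependent_adjoin_iff.1 hs.1
    have h2 := htu.sumElim h1
    have h3 : AlgebraicIndependent F (Sum.elim ![t, u] ((↑) : s → k)) := by
      refine (algebraicIndependent_equiv' (Equiv.sumComm _ _) ?_).1 h2
      ext i
      rcases i with i | i <;> rfl
    have h4 := (AlgebraicIndependent.sumElim_iff.1 h3).2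
    have h5 : Set.range ((↑) : s → k) = (s : Set k) := by
      ext z; simp
    rw [h5] at h4
    exact IntermediateField.algebraicIndependent_adjoin_iff.2 h4
  have hindF := hind.algebraicClosure
  -- `k` is algebraic over every subfield containing `t`, `u`, `s`
  have halg : ∀ (M : Subfield k), (∀ c : F, algebraMap F k c ∈ M) → t ∈ M → u ∈ M →
      (s : Set k) ⊆ M → Algebra.IsAlgebraic M k := by
    intro M hFM ht hu hsM
    have h1 : Algebra.IsAlgebraic (Algebra.adjoin L (Set.range ((↑) : s → k))) k := hs.isAlgebraic
    have h5 : Set.range ((↑) : s → k) = (s : Set k) := by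
      ext z; simp
    rw [h5] at h1
    have hLM : L.toSubfield ≤ M := by
      have : L ≤ (Subfield.toIntermediateField M hFM) := by
        rw [hL, IntermediateField.adjoin_le_iff]
        intro z hz
        rcases hz with rfl | hz
        · exact ht
        · rw [Set.mem_singleton_iff.1 hz]
          exact hu
      exact this
    have hAM : ∀ z ∈ Algebra.adjoin L (s : Set k), z ∈ M := by
      intro z hz
      induction hz using Algebra.adjoin_induction with
      | mem x hx => exact hsM hx
      | algebraMap r => exact hLM r.2
      | add x y _ _ hx hy => exact M.add_mem hx hy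
      | mul x y _ _ hx hy => exact M.mul_mem hx hy
    refine ⟨fun z => ?_⟩
    obtain ⟨p, hp0, hp⟩ := h1.isAlgebraic z
    let f : Algebra.adjoin L (s : Set k) →+* M :=
      { toFun := fun z => ⟨z, hAM z z.2⟩
        map_one' := rfl
        map_mul' := fun _ _ => rfl
        map_zero' := rfl
        map_add' := fun _ _ => rfl }
    have hf : Function.Injective f := by
      intro a b hab
      exact Subtype.ext (congrArg (fun z : M => (z : k)) hab)
    refine ⟨p.map f, ?_, ?_⟩
    · rw [Ne, Polynomial.map_eq_zero_iff hf]
      exact hp0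
    · rw [Polynomial.aeval_def, Polynomial.eval₂_map]
      rw [Polynomial.aeval_def] at hp
      exact hp
  have hfin1 : FiniteDimensional (IntermediateField.adjoin E₀ (Set.range ![t, u])) k := by
    have h1 : Algebra.IsAlgebraic (IntermediateField.adjoin E₀ (Set.range ![t, u])) k := by
      refine halg (IntermediateField.adjoin E₀ (Set.range ![t, u])).toSubfield ?_ ?_ ?_ ?_
      · exact fun c => (IntermediateField.adjoin E₀ (Set.range ![t, u])).algebraMap_mem
          (algebraMap F E₀ c)
      · exact IntermediateField.subset_adjoin _ _ ⟨0, rfl⟩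
      · exact IntermediateField.subset_adjoin _ _ ⟨1, rfl⟩
      · intro z hz
        exact (IntermediateField.adjoin E₀ (Set.range ![t, u])).algebraMap_mem
          ⟨z, IntermediateField.subset_adjoin F _ hz⟩
    have h3 : IsScalarTower F (IntermediateField.adjoin E₀ (Set.range ![t, u])) k :=
      IsScalarTower.of_algebraMap_eq fun _ => rfl
    have h2 : Algebra.EssFiniteType (IntermediateField.adjoin E₀ (Set.range ![t, u])) k :=
      Algebra.EssFiniteType.of_comp F _ k
    exact Algebra.finite_of_essFiniteType_of_isAlgebraic
  have hfinF : FiniteDimensional E₀ (algebraicClosure E₀ k) := finite_of_finite_adjoin _ hindF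
  obtain ⟨n, s', hs'⟩ : ∃ (n : ℕ) (s' : Fin n → k), Set.range s' = (s : Set k) := by
    refine ⟨s.card, fun i => (s.equivFin.symm i : k), ?_⟩
    ext z
    constructor
    · rintro ⟨i, rfl⟩
      exact (s.equivFin.symm i).2
    · intro hz
      exact ⟨s.equivFin ⟨z, hz⟩, by simp⟩
  have hE₀fg : ∃ S : Finset E₀, Subfield.closure (S : Set E₀) = ⊤ := by
    have h1 := RR.fg_adjoin hF s'
    rw [hs'] at h1
    exact h1
  let b := Module.finBasis E₀ (algebraicClosure E₀ k)
  have hb : IntermediateField.adjoin E₀ (Set.range fun i => (b i : k)) = algebraicClosure E₀ k := by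
    apply le_antisymm
    · rw [IntermediateField.adjoin_le_iff]
      rintro _ ⟨i, rfl⟩
      exact (b i).2
    · intro z hz
      have h2 : (⟨z, hz⟩ : algebraicClosure E₀ k) ∈
          (⊤ : Submodule E₀ (algebraicClosure E₀ k)) := trivial
      rw [← b.span_eq] at h2
      have h3 : Submodule.span E₀ (Set.range b) ≤
          Submodule.comap (algebraicClosure E₀ k).val.toLinearMap
            (IntermediateField.adjoin E₀
              (Set.range fun i => (b i : k))).toSubalgebra.toSubmodule := by
        rw [Submodule.span_le]
        rintro _ ⟨i, rfl⟩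
        exact IntermediateField.subset_adjoin E₀ _ ⟨i, rfl⟩
      exact h3 h2
  have hfg : ∃ S : Finset (algebraicClosure E₀ k),
      Subfield.closure (S : Set (algebraicClosure E₀ k)) = ⊤ := by
    have h1 := RR.fg_adjoin hE₀fg fun i => (b i : k)
    rw [hb] at h1
    exact h1
  let F₁ : IntermediateField F k := (algebraicClosure E₀ k).restrictScalars F
  refine ⟨F₁, hfg, ?_, hindF, ?_⟩
  · intro z hz
    have h1 : IsAlgebraic (algebraicClosure E₀ k) z := hz
    have h2 : IsAlgebraic E₀ z := h1.restrictScalars E₀
    exact mem_algebraicClosure_iff.2 h2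
  · have h1 : Algebra.IsAlgebraic (IntermediateField.adjoin F₁ {t, u}) k := by
      refine halg (IntermediateField.adjoin F₁ {t, u}).toSubfield ?_ ?_ ?_ ?_
      · exact fun c => (IntermediateField.adjoin F₁ {t, u}).algebraMap_mem (algebraMap F F₁ c)
      · exact IntermediateField.subset_adjoin _ _ (by simp)
      · exact IntermediateField.subset_adjoin _ _ (by simp)
      · intro z hz
        exact (IntermediateField.adjoin F₁ {t, u}).algebraMap_mem
          ⟨z, (algebraicClosure E₀ k).algebraMap_mem ⟨z, IntermediateField.subset_adjoin F _ hz⟩⟩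
    have h3 : IsScalarTower F (IntermediateField.adjoin F₁ {t, u}) k :=
      IsScalarTower.of_algebraMap_eq fun _ => rfl
    have h2 : Algebra.EssFiniteType (IntermediateField.adjoin F₁ {t, u}) k :=
      Algebra.EssFiniteType.of_comp F _ k
    exact Algebra.finite_of_essFiniteType_of_isAlgebraic

/-- **Descent of a hypersurface.** -/
theorem exists_desc {F k : Type u} [Field F] [Field k] [Algebra F k] {I : Type v}
    {Ψ₁ : MvPolynomial I k} (hΨ₁ : Ψ₁ ≠ 0) : ∃ Ψ : MvPolynomial I F, Ψ ≠ 0 ∧
      ∀ a : I → F, MvPolynomial.eval a Ψ ≠ 0 →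
        MvPolynomial.eval (fun i => algebraMap F k (a i)) Ψ₁ ≠ 0 := by
  obtain ⟨Ψ, hΨ, h⟩ := RR.exists_eval_of_evk (F := F) hΨ₁
  exact ⟨Ψ, hΨ, fun a ha h0 => ha (h a h0)⟩

end Pool.Agent.TWH
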